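import Mathlib

set_option autoImplicit false

namespace Pool.Agent.H.MP_b4ba96_co

open Finset

theorem poin1 (m : ℕ) [NeZero m] (f : ZMod m → ℝ) (x y : ZMod m) :
    (f y - f x) ^ 2 ≤ m * ∑ u, (f (u + 1) - f u) ^ 2 := by
  obtain ⟨k, hk, rfl⟩ : ∃ k : ℕ, k < m ∧ y = x + k := ⟨(y - x).val, ZMod.val_lt _, by simp⟩
  have h1 : f (x + k) - f x = ∑ i ∈ range k, (f (x + i + 1) - f (x + i)) := by
    have := Finset.sum_range_sub (fun i : ℕ => f (x + i)) k
    simp only [Nat.cast_add, Nat.cast_one, Nat.cast_zero, add_zero, ← add_assoc] at this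
    exact this.symm
  have h2 := sq_sum_le_card_mul_sum_sq (s := range k) (f := fun i : ℕ => f (x + i + 1) - f (x + i))
  have h3 : ∑ i ∈ range k, (f (x + i + 1) - f (x + i)) ^ 2 ≤ ∑ u, (f (u + 1) - f u) ^ 2 := by
    rw [← Finset.sum_image (s := range k) (g := fun i : ℕ => x + (i : ZMod m))
      (f := fun u => (f (u + 1) - f u) ^ 2)]
    · exact Finset.sum_le_sum_of_subset_of_nonneg (subset_univ _) fun _ _ _ => sq_nonneg _
    · intro a ha b hb hab
      simp only [coe_range, Set.mem_Iio] at ha hb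
      have := congrArg ZMod.val (add_left_cancel hab)
      rwa [ZMod.val_cast_of_lt (by omega), ZMod.val_cast_of_lt (by omega)] at this
  rw [h1]
  rw [card_range] at h2
  have h4 : (k : ℝ) ≤ m := by exact_mod_cast hk.le
  have h5 : 0 ≤ ∑ i ∈ range k, (f (x + i + 1) - f (x + i)) ^ 2 :=
    Finset.sum_nonneg fun _ _ => sq_nonneg _
  exact h2.trans (mul_le_mul h4 h3 h5 (by positivity))

theorem poin2 (m : ℕ) [NeZero m] (f : ZMod m → ℝ) (μ : ℝ) (h : ∑ x, f x = μ * m) :
    ∑ x, (f x - μ) ^ 2 ≤ (m : ℝ) ^ 2 * ∑ u, (f (u + 1) - f u) ^ 2 := by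
  obtain ⟨D, hD⟩ : ∃ D, D = ∑ u, (f (u + 1) - f u) ^ 2 := ⟨_, rfl⟩
  have m0 : (0 : ℝ) < m := by exact_mod_cast Nat.pos_of_ne_zero (NeZero.ne m)
  have h1 : ∀ x, (f x - μ) ^ 2 ≤ m * D := by
    intro x
    have h2 := sq_sum_le_card_mul_sum_sq (s := (univ : Finset (ZMod m))) (f := fun y => f x - f y)
    have h3 : ∑ y, (f x - f y) ^ 2 ≤ ∑ _y : ZMod m, m * D :=
      Finset.sum_le_sum fun y _ => hD ▸ poin1 m f y x
    rw [Finset.sum_sub_distrib, h] at h2
    simp only [sum_const, card_univ, ZMod.card, nsmul_eq_mul] at h2 h3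
    have h4 := h2.trans (mul_le_mul_of_nonneg_left h3 m0.le)
    have h5 : (m : ℝ) ^ 2 * (f x - μ) ^ 2 ≤ (m : ℝ) ^ 2 * (m * D) := by linarith [h4]
    exact le_of_mul_le_mul_left h5 (by positivity)
  rw [← hD]
  have := Finset.sum_le_sum (s := univ) fun x _ => h1 x
  simp only [sum_const, card_univ, ZMod.card, nsmul_eq_mul] at this
  linarith

theorem poin (m : ℕ) [NeZero m] (h : ℕ) : ∀ f : (Fin h → ZMod m) → ℝ, ∀ μ : ℝ,
    ∑ x, f x = μ * (m : ℝ) ^ h →
    ∑ x, (f x - μ) ^ 2 ≤ (m : ℝ) ^ 2 * ∑ j, ∑ x, (f (x + Pi.single j 1) - f x) ^ 2 := by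
  induction h with
  | zero =>
    intro f μ h
    simp only [Finset.univ_unique, Finset.sum_singleton, pow_zero, mul_one] at h ⊢
    simp [h]
  | succ h ih =>
    intro f μ hμ
    have m0 : (0 : ℝ) < m := by exact_mod_cast Nat.pos_of_ne_zero (NeZero.ne m)
    have sw : ∀ F : (Fin (h + 1) → ZMod m) → ℝ,
        ∑ x, F x = ∑ y : Fin h → ZMod m, ∑ a : ZMod m, F (Fin.cons a y) := by
      intro F
      rw [Finset.sum_comm, ← Fintype.sum_prod_type']
      exact (Fintype.sum_equiv (Fin.consEquiv fun _ => ZMod m) _ _ (fun _ => rfl)).symm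
    obtain ⟨g, hg⟩ : ∃ g : (Fin h → ZMod m) → ℝ, ∀ y, ∑ a : ZMod m, f (Fin.cons a y) = g y * m :=
      ⟨fun y => (∑ a : ZMod m, f (Fin.cons a y)) / m, fun y => by field_simp⟩
    have h1 := ih g μ (by
      rw [sw] at hμ
      simp only [hg] at hμ
      rw [← Finset.sum_mul, pow_succ] at hμ
      exact mul_right_cancel₀ m0.ne' (by linarith))
    have c0 : ∀ (a : ZMod m) (y : Fin h → ZMod m),
        (Fin.cons a y : Fin (h + 1) → ZMod m) + Pi.single 0 1 = Fin.cons (a + 1) y := by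
      intro a y; funext i
      refine Fin.cases ?_ (fun i => ?_) i <;> simp
    have cs : ∀ (a : ZMod m) (y : Fin h → ZMod m) (j : Fin h),
        (Fin.cons a y : Fin (h + 1) → ZMod m) + Pi.single j.succ 1 =
          Fin.cons a (y + Pi.single j 1) := by
      intro a y j; funext i
      refine Fin.cases ?_ (fun i => ?_) i
      · simp
      · simp [Pi.single_apply]
    have h2 : ∀ y, ∑ a : ZMod m, (f (Fin.cons a y) - μ) ^ 2 ≤
        (m : ℝ) ^ 2 * ∑ a : ZMod m, (f (Fin.cons (a + 1) y) - f (Fin.cons a y)) ^ 2 +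
          m * (g y - μ) ^ 2 := by
      intro y
      have p := poin2 m (fun a => f (Fin.cons a y)) (g y) (hg y)
      have e : ∑ a : ZMod m, (f (Fin.cons a y) - μ) ^ 2 =
          ∑ a : ZMod m, ((f (Fin.cons a y) - g y) ^ 2 + 2 * (g y - μ) * f (Fin.cons a y) +
            (μ ^ 2 - g y ^ 2)) := Finset.sum_congr rfl fun a _ => by ring
      rw [e, Finset.sum_add_distrib, Finset.sum_add_distrib, ← Finset.mul_sum, hg]
      simp only [sum_const, card_univ, ZMod.card, nsmul_eq_mul]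
      linarith
    have h3 : ∀ y y', m * (g y' - g y) ^ 2 ≤
        ∑ a : ZMod m, (f (Fin.cons a y') - f (Fin.cons a y)) ^ 2 := by
      intro y y'
      have h2 := sq_sum_le_card_mul_sum_sq (s := (univ : Finset (ZMod m)))
        (f := fun a => f (Fin.cons a y') - f (Fin.cons a y))
      rw [Finset.sum_sub_distrib, hg, hg, card_univ, ZMod.card] at h2
      exact le_of_mul_le_mul_left (by linarith [h2]) m0
    rw [sw, Fin.sum_univ_succ, sw, mul_add]
    refine (Finset.sum_le_sum fun y _ => h2 y).trans ?_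
    rw [Finset.sum_add_distrib, ← Finset.mul_sum, ← Finset.mul_sum]
    simp only [c0]
    have h4 : m * ∑ j : Fin h, ∑ y, (g (y + Pi.single j 1) - g y) ^ 2 ≤
        ∑ j : Fin h, ∑ x, (f (x + Pi.single j.succ 1) - f x) ^ 2 := by
      rw [Finset.mul_sum]
      refine Finset.sum_le_sum fun j _ => ?_
      rw [sw, Finset.mul_sum]
      refine Finset.sum_le_sum fun y _ => ?_
      simp only [cs]
      exact h3 _ _
    have h5 := mul_le_mul_of_nonneg_left h1 m0.le
    have h6 := mul_le_mul_of_nonneg_left h4 (sq_nonneg (m : ℝ))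
    linarith

end Pool.Agent.H.MP_b4ba96_co
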