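import Pool.Agent.H.MP_b4ba96_co.A

set_option autoImplicit false

namespace Pool.Agent.H.MP_b4ba96_co

open Finset

noncomputable def dd {m h : ℕ} (ψ : ZMod m → ℂ) (x y : Fin h → ZMod m) : ℝ :=
  ∑ j, ‖ψ (x j) - ψ (y j)‖ ^ 2

theorem dd_upd {m h : ℕ} (ψ : ZMod m → ℂ) (x a : Fin h → ZMod m) (j : Fin h) (e : ZMod m) :
    dd ψ (x + Pi.single j e) a - dd ψ x a =
      ‖ψ (x j + e) - ψ (a j)‖ ^ 2 - ‖ψ (x j) - ψ (a j)‖ ^ 2 := by
  unfold dd
  rw [← Finset.sum_sub_distrib, Finset.sum_eq_single j]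
  · simp
  · intro i _ hi
    simp [Pi.single_eq_of_ne hi]
  · simp

theorem close (m h : ℕ) [NeZero m] (ψ : ZMod m → ℂ) (η δ R : ℝ) (η0 : 0 ≤ η)
    (hη : ∀ u, ‖ψ (u + 1) - ψ u‖ ≤ η) (h1 : (m : ℝ) ^ 2 * η ^ 2 ≤ 40) (h2 : η ^ 2 * h ≤ 40)
    (hR : 10 ≤ R) (δ0 : 0 < δ) (hδ : 2560 < δ * R) (A B : Finset (Fin h → ZMod m))
    (hA : δ * (m : ℝ) ^ h ≤ #A) (hB : δ * (m : ℝ) ^ h ≤ #B) :
    ∃ a ∈ A, ∃ b ∈ B, dd ψ b a ≤ R := by
  classical
  by_contra hc
  push Not at hc
  have m0 : (0 : ℝ) < m := by exact_mod_cast Nat.pos_of_ne_zero (NeZero.ne m)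
  obtain ⟨N, hN⟩ : ∃ N, N = (m : ℝ) ^ h := ⟨_, rfl⟩
  have N0 : 0 < N := by rw [hN]; positivity
  rw [← hN] at hA hB
  have An : A.Nonempty := by
    rw [← card_pos]
    have : (0 : ℝ) < #A := lt_of_lt_of_le (by positivity) hA
    exact_mod_cast this
  have d0 : ∀ x y : Fin h → ZMod m, 0 ≤ dd ψ x y := fun x y =>
    Finset.sum_nonneg fun _ _ => sq_nonneg _
  obtain ⟨n, hnA, hn⟩ : ∃ n : (Fin h → ZMod m) → (Fin h → ZMod m), (∀ x, n x ∈ A) ∧
      ∀ x, ∀ a ∈ A, dd ψ x (n x) ≤ dd ψ x a := by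
    have := fun x => A.exists_min_image (fun a => dd ψ x a) An
    choose n h1 h2 using this
    exact ⟨n, h1, h2⟩
  obtain ⟨f, hf⟩ : ∃ f : (Fin h → ZMod m) → ℝ, ∀ x, f x = min (dd ψ x (n x)) R := ⟨_, fun _ => rfl⟩
  have fA : ∀ a ∈ A, f a = 0 := by
    intro a ha
    have h3 := hn a a ha
    have h4 : dd ψ a a = 0 := by simp [dd]
    rw [hf, le_antisymm (h4 ▸ h3) (d0 _ _)]
    exact min_eq_left (by linarith)
  have fB : ∀ b ∈ B, f b = R := fun b hb => by
    rw [hf]; exact min_eq_right (hc _ (hnA b) b hb).le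
  have key : ∀ e : ZMod m, (∀ u, ‖ψ (u + e) - ψ u‖ ≤ η) → ∀ x,
      ∑ j, (max (f (x + Pi.single j e) - f x) 0) ^ 2 ≤ 8 * η ^ 2 * R + 80 * η ^ 2 := by
    intro e he x
    have R0 : 0 ≤ R := by linarith
    by_cases hx : R ≤ dd ψ x (n x)
    · have : ∀ j, max (f (x + Pi.single j e) - f x) 0 = 0 := fun j => by
        apply max_eq_right
        rw [hf x, min_eq_right hx, hf]
        linarith [min_le_right (dd ψ (x + Pi.single j e) (n (x + Pi.single j e))) R]
      simp only [this]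
      simp only [ne_eq, OfNat.ofNat_ne_zero, not_false_eq_true, zero_pow, sum_const_zero]
      positivity
    · push Not at hx
      have hj : ∀ j, (max (f (x + Pi.single j e) - f x) 0) ^ 2 ≤
          8 * η ^ 2 * ‖ψ (x j) - ψ (n x j)‖ ^ 2 + 2 * η ^ 4 := by
        intro j
        obtain ⟨d, hd⟩ : ∃ d, d = ‖ψ (x j) - ψ (n x j)‖ := ⟨_, rfl⟩
        have dn : 0 ≤ d := hd ▸ norm_nonneg _
        have t1 : ‖ψ (x j + e) - ψ (n x j)‖ ≤ η + d := by
          rw [hd]
          exact (norm_sub_le_norm_sub_add_norm_sub _ (ψ (x j)) _).trans (by linarith [he (x j)])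
        have t2 : ‖ψ (x j + e) - ψ (n x j)‖ ^ 2 ≤ (η + d) ^ 2 :=
          pow_le_pow_left₀ (norm_nonneg _) t1 2
        have t3 := dd_upd ψ x (n x) j e
        rw [← hd] at t3
        have t4 : f (x + Pi.single j e) ≤ dd ψ (x + Pi.single j e) (n x) := by
          rw [hf]; exact (min_le_left _ _).trans (hn _ _ (hnA x))
        have t5 : f x = dd ψ x (n x) := by rw [hf, min_eq_left hx.le]
        have t6 : max (f (x + Pi.single j e) - f x) 0 ≤ 2 * η * d + η ^ 2 :=
          max_le (by linarith) (by positivity)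
        have t7 := pow_le_pow_left₀ (le_max_right _ _) t6 2
        rw [← hd]
        have t8 := sq_nonneg (2 * η * d - η ^ 2)
        linarith
      refine (Finset.sum_le_sum fun j _ => hj j).trans ?_
      rw [Finset.sum_add_distrib, ← Finset.mul_sum]
      simp only [sum_const, card_univ, Fintype.card_fin, nsmul_eq_mul]
      have u1 : 8 * η ^ 2 * ∑ j, ‖ψ (x j) - ψ (n x j)‖ ^ 2 ≤ 8 * η ^ 2 * R :=
        mul_le_mul_of_nonneg_left hx.le (by positivity)
      have u2 := mul_le_mul_of_nonneg_left h2 (sq_nonneg η)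
      linarith
  have k1 := key 1 hη
  have k2 := key (-1) (fun u => by
    have := hη (u + -1)
    rw [norm_sub_rev]
    simpa using this)
  have cN : (Fintype.card (Fin h → ZMod m) : ℝ) = N := by simp [hN, ZMod.card]
  have P := poin m h f ((∑ x, f x) / N) (by rw [← hN]; field_simp)
  obtain ⟨μ, hμ⟩ : ∃ μ, μ = (∑ x, f x) / N := ⟨_, rfl⟩
  rw [← hμ] at P
  have e1 : ∀ j, ∑ x, (f (x + Pi.single j 1) - f x) ^ 2 =
      ∑ x, (max (f (x + Pi.single j 1) - f x) 0) ^ 2 +
        ∑ x, (max (f (x + Pi.single j (-1)) - f x) 0) ^ 2 := by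
    intro j
    have e2 : ∑ x, (max (f x - f (x + Pi.single j 1)) 0) ^ 2 =
        ∑ x, (max (f (x + Pi.single j (-1)) - f x) 0) ^ 2 :=
      Fintype.sum_equiv (Equiv.addRight (Pi.single j (1 : ZMod m))) _ _ fun x => by
        have : x + Pi.single j 1 + Pi.single j (-1) = x := by
          rw [Pi.single_neg]; simp
        simp only [Equiv.coe_addRight, this]
    rw [← e2, ← Finset.sum_add_distrib]
    refine Finset.sum_congr rfl fun x _ => ?_
    rcases le_total (f (x + Pi.single j 1)) (f x) with h | h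
    · rw [max_eq_right (by linarith), max_eq_left (by linarith)]; ring
    · rw [max_eq_left (by linarith), max_eq_right (by linarith)]; ring
  simp only [e1] at P
  rw [Finset.sum_add_distrib, Finset.sum_comm (s := (univ : Finset (Fin h))),
    Finset.sum_comm (s := (univ : Finset (Fin h)))] at P
  have s1 := Finset.sum_le_sum (s := univ) fun x _ => k1 x
  have s2 := Finset.sum_le_sum (s := univ) fun x _ => k2 x
  simp only [sum_const, card_univ, nsmul_eq_mul, cN] at s1 s2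
  have dj : Disjoint A B := by
    rw [Finset.disjoint_left]
    intro a ha hb
    have := fA a ha
    rw [fB a hb] at this
    linarith
  have l1 : ∑ x ∈ A ∪ B, (f x - μ) ^ 2 ≤ ∑ x, (f x - μ) ^ 2 :=
    Finset.sum_le_sum_of_subset_of_nonneg (subset_univ _) fun _ _ _ => sq_nonneg _
  rw [Finset.sum_union dj, Finset.sum_congr rfl fun a ha => by rw [fA a ha],
    Finset.sum_congr (s₁ := B) rfl fun a ha => by rw [fB a ha]] at l1
  simp only [sum_const, nsmul_eq_mul] at l1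
  have l2 := mul_le_mul_of_nonneg_right hA (sq_nonneg (0 - μ))
  have l3 := mul_le_mul_of_nonneg_right hB (sq_nonneg (R - μ))
  have l4 : δ * N * (R ^ 2 / 2) ≤ δ * N * ((0 - μ) ^ 2 + (R - μ) ^ 2) :=
    mul_le_mul_of_nonneg_left (by linarith [sq_nonneg (R - 2 * μ)]) (by positivity)
  have l5 := mul_le_mul_of_nonneg_left (add_le_add s1 s2) (sq_nonneg (m : ℝ))
  have l6 : (m : ℝ) ^ 2 * η ^ 2 * (N * (16 * R + 160)) ≤ 40 * (N * (16 * R + 160)) :=
    mul_le_mul_of_nonneg_right h1 (by positivity)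
  have l7 : N * (δ * R * R / 2) ≤ N * (1280 * R) := by
    have : N * 6400 ≤ N * (640 * R) := mul_le_mul_of_nonneg_left (by linarith) N0.le
    linarith
  have l8 := le_of_mul_le_mul_left l7 N0
  have l9 := mul_lt_mul_of_pos_right hδ (show 0 < R by linarith)
  linarith

end Pool.Agent.H.MP_b4ba96_co
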