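import Pool.Agent.H.MP_b4ba96_co.B

set_option autoImplicit false

namespace Pool.Agent.H.MP_b4ba96_co

open Finset Classical

theorem lo1 (h : ℕ) (l u : Fin h → ℝ) (hg : ∀ j, 1 ≤ |u j - l j|) (a : ℝ) :
    #{T : Finset (Fin h) | a ≤ ∑ j, (if j ∈ T then u j else l j) ∧
      ∑ j, (if j ∈ T then u j else l j) < a + 1} ≤ h.choose (h / 2) := by
  obtain ⟨D, hD⟩ : ∃ D : Finset (Fin h), ∀ j, j ∈ D ↔ u j < l j :=
    ⟨univ.filter fun j => u j < l j, by simp⟩
  obtain ⟨F, hF⟩ : ∃ F : Finset (Finset (Fin h)), ∀ T, T ∈ F ↔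
      (a ≤ ∑ j, (if j ∈ T then max (u j) (l j) else min (u j) (l j)) ∧
      ∑ j, (if j ∈ T then max (u j) (l j) else min (u j) (l j)) < a + 1) :=
    ⟨univ.filter fun T => (a ≤ ∑ j, (if j ∈ T then max (u j) (l j) else min (u j) (l j)) ∧
      ∑ j, (if j ∈ T then max (u j) (l j) else min (u j) (l j)) < a + 1),
      fun T => by rw [mem_filter_univ]⟩
  have hA : IsAntichain (· ⊆ ·) (F : Set (Finset (Fin h))) := by
    intro T hT T' hT' hne hsub
    rw [mem_coe, hF] at hT hT'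
    obtain ⟨i, hi, hi'⟩ := exists_of_ssubset (lt_of_le_of_ne hsub hne)
    have : ∑ j, ((if j ∈ T then max (u j) (l j) else min (u j) (l j)) + if j = i then 1 else 0) ≤
        ∑ j, (if j ∈ T' then max (u j) (l j) else min (u j) (l j)) := by
      refine Finset.sum_le_sum fun j _ => ?_
      by_cases hj : j = i
      · subst hj
        have := hg j
        rw [← max_sub_min_eq_abs'] at this
        simp only [hi, hi', if_true, if_false]
        linarith
      · by_cases h1 : j ∈ T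
        · simp [hj, h1, hsub h1]
        · by_cases h2 : j ∈ T' <;> simp [hj, h1, h2, min_le_max]
    rw [Finset.sum_add_distrib] at this
    simp only [sum_ite_eq', mem_univ, if_true] at this
    linarith [hT.1, hT'.2]
  have := hA.sperner
  rw [Fintype.card_fin] at this
  refine le_trans (card_le_card_of_injOn (fun T => symmDiff T D) ?_ ?_) this
  · intro T hT
    rw [mem_coe, mem_filter_univ] at hT
    rw [mem_coe, hF]
    have : ∀ j, (if j ∈ symmDiff T D then max (u j) (l j) else min (u j) (l j)) =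
        if j ∈ T then u j else l j := by
      intro j
      rcases lt_or_ge (u j) (l j) with h1 | h1
      · by_cases h2 : j ∈ T <;> simp [mem_symmDiff, hD, h1, h2, h1.le]
      · by_cases h2 : j ∈ T <;> simp [mem_symmDiff, hD, h1, h2, not_lt.2 h1]
    simp only [this]
    exact hT
  · intro T _ T' _ hh
    exact symmDiff_left_injective D hh

theorem lo2 {G : Type} [Fintype G] (h : ℕ) (c : G → ℝ) (p : G ≃ G) (hp : ∀ u, 1 ≤ |c (p u) - c u|)
    (a : ℝ) : 2 ^ h * #{u : Fin h → G | a ≤ ∑ j, c (u j) ∧ ∑ j, c (u j) < a + 1} ≤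
      h.choose (h / 2) * Fintype.card G ^ h := by
  have e1 : ∀ T : Finset (Fin h), #{u : Fin h → G | a ≤ ∑ j, c (u j) ∧ ∑ j, c (u j) < a + 1} =
      ∑ u : Fin h → G, if (a ≤ ∑ j, (if j ∈ T then c (p (u j)) else c (u j)) ∧
        ∑ j, (if j ∈ T then c (p (u j)) else c (u j)) < a + 1) then 1 else 0 := by
    intro T
    rw [card_filter]
    refine (Fintype.sum_equiv (Equiv.piCongrRight fun j => if j ∈ T then p else Equiv.refl G)
      _ _ fun u => ?_).symm
    have : ∀ j, c ((Equiv.piCongrRight fun j => if j ∈ T then p else Equiv.refl G) u j) =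
        if j ∈ T then c (p (u j)) else c (u j) := by
      intro j
      by_cases hj : j ∈ T <;> simp [hj]
    simp only [this]
  have e2 := Finset.sum_congr (s₁ := (univ : Finset (Finset (Fin h)))) rfl fun T _ => e1 T
  rw [sum_const, card_univ, Fintype.card_finset, Fintype.card_fin, smul_eq_mul,
    Finset.sum_comm] at e2
  rw [e2]
  have e3 := Finset.sum_le_sum (s := (univ : Finset (Fin h → G))) fun u _ =>
    lo1 h (fun j => c (u j)) (fun j => c (p (u j))) (fun j => hp _) a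
  simp only [card_filter] at e3
  refine e3.trans ?_
  simp [mul_comm]

theorem cb (n : ℕ) : (2 * n + 1) * n.centralBinom ^ 2 ≤ 16 ^ n := by
  induction n with
  | zero => simp
  | succ n ih =>
    have h1 := Nat.succ_mul_centralBinom_succ n
    have h2 : (n + 1) ^ 2 * ((2 * (n + 1) + 1) * (n + 1).centralBinom ^ 2) =
        4 * ((2 * n + 1) * (2 * n + 3)) * ((2 * n + 1) * n.centralBinom ^ 2) := by
      calc _ = (2 * n + 3) * ((n + 1) * (n + 1).centralBinom) ^ 2 := by ring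
        _ = _ := by rw [h1]; ring
    have h3 : 4 * ((2 * n + 1) * (2 * n + 3)) ≤ (n + 1) ^ 2 * 16 := by nlinarith
    have h4 := Nat.mul_le_mul h3 ih
    rw [← h2, mul_assoc, ← pow_succ'] at h4
    exact Nat.le_of_mul_le_mul_left h4 (by positivity)

theorem lo3 {G : Type} [Fintype G] (n R : ℕ) (ε : ℝ) (ε0 : 0 < ε) (c : G → ℝ) (p : G ≃ G)
    (hp : ∀ u, 1 ≤ |c (p u) - c u|) (hn : (2 * R + 1 : ℝ) ^ 2 ≤ ε ^ 2 * (2 * n + 1)) :
    (#{u : Fin (2 * n) → G | |∑ j, c (u j)| ≤ R} : ℝ) ≤ ε * (Fintype.card G : ℝ) ^ (2 * n) := by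
  obtain ⟨N, hN⟩ : ∃ N, N = (Fintype.card G : ℝ) ^ (2 * n) := ⟨_, rfl⟩
  have N0 : 0 ≤ N := by rw [hN]; positivity
  have h1 : #{u : Fin (2 * n) → G | |∑ j, c (u j)| ≤ R} ≤ ∑ i ∈ range (2 * R + 1),
      #{u : Fin (2 * n) → G | (i - R : ℝ) ≤ ∑ j, c (u j) ∧ ∑ j, c (u j) < (i - R : ℝ) + 1} := by
    refine le_trans (card_le_card ?_) card_biUnion_le
    intro u hu
    rw [mem_filter_univ, abs_le] at hu
    have h0 : 0 ≤ ∑ j, c (u j) + R := by linarith [hu.1]
    rw [mem_biUnion]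
    refine ⟨⌊∑ j, c (u j) + R⌋₊, ?_, ?_⟩
    · rw [mem_range, Nat.floor_lt h0]
      push_cast
      linarith [hu.2]
    · rw [mem_filter_univ]
      exact ⟨by linarith [Nat.floor_le h0], by linarith [Nat.lt_floor_add_one (∑ j, c (u j) + R)]⟩
  have h2 : 2 ^ (2 * n) * #{u : Fin (2 * n) → G | |∑ j, c (u j)| ≤ R} ≤
      (2 * R + 1) * (n.centralBinom * Fintype.card G ^ (2 * n)) := by
    refine (Nat.mul_le_mul_left _ h1).trans ?_
    rw [Finset.mul_sum]
    refine (Finset.sum_le_sum fun i _ => lo2 (2 * n) c p hp _).trans ?_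
    rw [sum_const, card_range, smul_eq_mul, Nat.mul_div_cancel_left n two_pos,
      Nat.centralBinom_eq_two_mul_choose]
  have h3 : (2 : ℝ) ^ (2 * n) * #{u : Fin (2 * n) → G | |∑ j, c (u j)| ≤ R} ≤
      (2 * R + 1) * (n.centralBinom * N) := by rw [hN]; exact_mod_cast h2
  have h4 : (2 * n + 1 : ℝ) * (n.centralBinom : ℝ) ^ 2 ≤ 16 ^ n := by exact_mod_cast cb n
  have h5 : (2 * R + 1 : ℝ) * n.centralBinom ≤ ε * 2 ^ (2 * n) := by
    refine (pow_le_pow_iff_left₀ (by positivity) (by positivity) two_ne_zero).1 ?_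
    have e : ((2 : ℝ) ^ (2 * n)) ^ 2 = 16 ^ n := by
      rw [← pow_mul, show 2 * n * 2 = 4 * n by ring, pow_mul]; norm_num
    rw [mul_pow, mul_pow, e]
    have a1 := mul_le_mul_of_nonneg_right hn (sq_nonneg (n.centralBinom : ℝ))
    have a2 := mul_le_mul_of_nonneg_left h4 (sq_nonneg ε)
    linarith
  have h6 := mul_le_mul_of_nonneg_right h5 N0
  rw [← hN]
  exact le_of_mul_le_mul_left (a := (2 : ℝ) ^ (2 * n)) (by linarith) (by positivity)

end Pool.Agent.H.MP_b4ba96_co
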