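import Pool.Agent.H.MP_b4ba96_co.C

set_option autoImplicit false

namespace Pool.Agent.H.MP_b4ba96_co

open Finset Classical

structure Tmp (Ω : Type) [Fintype Ω] (ε : ℝ) (A C : Ω → Ω → Prop) : Prop where
  sA : ∀ x y, A x y → A y x
  iA : ∀ x, ¬ A x x
  sC : ∀ x y, C x y → C y x
  tri : ∀ x y z, A x y → A y z → A x z → False
  four : ∀ x x' y y', A x x' → A y y' → C x y → C x y' → C x' y → C x' y' → False
  lo : ∀ x, (1 / 2 - ε) * Fintype.card Ω ≤ #{y | C x y}
  hi : ∀ x, (#{y | C x y} : ℝ) ≤ Fintype.card Ω / 2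
  ind : ∀ S : Finset Ω, (∀ x ∈ S, ∀ y ∈ S, ¬ A x y) → (#S : ℝ) ≤ ε * Fintype.card Ω

theorem chr (q : ℕ) [NeZero (4 * q)] : ∃ a b : ZMod (4 * q) → ℝ, ∃ ψ : ZMod (4 * q) → ℂ,
    (∀ u, ψ u = ⟨a u, b u⟩) ∧ (∀ u, a u ^ 2 + b u ^ 2 = 1) ∧
    (∀ u v, a (u - v) = a u * a v + b u * b v) ∧
    (∀ u, a (u + q) = -b u) ∧ (∀ u, b (u + q) = a u) ∧
    ∀ u, ‖ψ (u + 1) - ψ u‖ ≤ 2 * Real.pi / (4 * q : ℕ) := by
  obtain ⟨ψ, hψ⟩ : ∃ ψ : AddChar (ZMod (4 * q)) ℂ, ψ = ZMod.stdAddChar := ⟨_, rfl⟩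
  have n1 : ∀ u, ‖ψ u‖ = 1 := fun u => by rw [hψ, ZMod.stdAddChar_apply]; exact Circle.norm_coe _
  have q0 : (q : ℂ) ≠ 0 := by
    have := NeZero.ne (4 * q)
    exact_mod_cast (show q ≠ 0 by omega)
  have hq : ψ q = Complex.I := by
    have := ZMod.stdAddChar_coe (N := 4 * q) (q : ℤ)
    rw [Int.cast_natCast] at this
    rw [hψ, this]
    refine Eq.trans ?_ Complex.exp_pi_div_two_mul_I
    congr 1
    push_cast
    field_simp
    ring
  refine ⟨fun u => (ψ u).re, fun u => (ψ u).im, ψ, fun u => rfl, fun u => ?_, fun u v => ?_,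
    fun u => ?_, fun u => ?_, fun u => ?_⟩
  · have := Complex.sq_norm (ψ u)
    rw [n1, Complex.normSq_apply] at this
    linarith
  · simp only [sub_eq_add_neg, AddChar.map_add_eq_mul, AddChar.map_neg_eq_conj]
    simp
  · simp [AddChar.map_add_eq_mul, hq]
  · simp [AddChar.map_add_eq_mul, hq]
  · rw [AddChar.map_add_eq_mul, ← mul_sub_one, norm_mul, n1, one_mul]
    have := ZMod.stdAddChar_coe (N := 4 * q) (1 : ℤ)
    rw [Int.cast_one] at this
    rw [hψ, this]
    have h2 := Real.norm_exp_I_mul_ofReal_sub_one_le (x := 2 * Real.pi / (4 * q : ℕ))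
    rw [Real.norm_of_nonneg (by positivity)] at h2
    convert h2 using 3
    push_cast
    ring

theorem perm {G : Type} [AddCommGroup G] (q : G) (a b : G → ℝ) (h1 : ∀ u, a u ^ 2 + b u ^ 2 = 1)
    (h2 : ∀ u, a (u + q) = -b u) (h3 : ∀ u, b (u + q) = a u) :
    ∃ p : G ≃ G, ∀ u, 1 ≤ |a (p u) - a u| := by
  obtain ⟨Q, hQ⟩ : ∃ Q : G → Prop, ∀ u, Q u ↔ (0 < a u * b u ∨ b u = 0) := ⟨_, fun _ => Iff.rfl⟩
  have hq : ∀ u, Q (u + q) ↔ ¬ Q u := by
    intro u
    rw [hQ, hQ, h2, h3]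
    have := h1 u
    constructor
    · rintro (h | h) (h' | h')
      · linarith
      · rw [h'] at h; simp at h
      · rw [h] at h'; simp at h'
      · rw [h, h'] at this; simp at this
    · intro h
      push Not at h
      rcases h.1.lt_or_eq with h' | h'
      · left; linarith
      · right; exact (mul_eq_zero.1 h').resolve_right h.2
  have hq' : ∀ u, ¬ Q u → Q (u - q) := by
    intro u hu
    by_contra h
    exact hu (by simpa using (hq (u - q)).2 h)
  have inv : Function.Involutive fun u => if Q u then u + q else u - q := by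
    intro u
    by_cases hu : Q u
    · have : ¬ Q (u + q) := by rw [hq]; simpa using hu
      simp [hu, this]
    · simp [hu, hq' u hu]
  have key : ∀ u, Q u → 1 ≤ |a (u + q) - a u| := by
    intro u hu
    have : 0 ≤ a u * b u := by
      rcases (hQ u).1 hu with h | h
      · exact h.le
      · simp [h]
    rw [h2, ← one_le_sq_iff_one_le_abs]
    nlinarith [h1 u]
  refine ⟨inv.toPerm, fun u => ?_⟩
  by_cases hu : Q u
  · simpa [hu] using key u hu
  · have := key _ (hq' u hu)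
    rw [abs_sub_comm] at this
    simpa [hu] using this

theorem template (ε : ℝ) (ε0 : 0 < ε) : ∃ (Ω : Type) (_ : Fintype Ω) (A C : Ω → Ω → Prop),
    0 < Fintype.card Ω ∧ Tmp Ω ε A C := by
  obtain ⟨R, hR⟩ := exists_nat_gt (max 10 (2560 / ε))
  have R1 : (10 : ℝ) ≤ R := (le_max_left _ _).trans hR.le
  have R2 : 2560 < ε * R := by
    have := (le_max_right _ _).trans_lt hR
    rwa [div_lt_iff₀' ε0] at this
  obtain ⟨n, hn⟩ := exists_nat_gt (max (R : ℝ) ((2 * R + 1 : ℝ) ^ 2 / ε ^ 2))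
  have n1 : (R : ℝ) < n := (le_max_left _ _).trans_lt hn
  have n2 : (2 * R + 1 : ℝ) ^ 2 ≤ ε ^ 2 * (2 * n + 1) := by
    have := (le_max_right _ _).trans_lt hn
    rw [div_lt_iff₀' (by positivity)] at this
    have h0 : (0 : ℝ) ≤ ε ^ 2 * (n + 1) := by positivity
    linarith
  have : NeZero (4 * (n + 1)) := ⟨by omega⟩
  obtain ⟨a, b, ψ, hψ, h1, h2, h3, h4, h5⟩ := chr (n + 1)
  obtain ⟨q, hq⟩ : ∃ q : ZMod (4 * (n + 1)), q = ((n + 1 : ℕ) : ZMod (4 * (n + 1))) := ⟨_, rfl⟩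
  rw [← hq] at h3 h4
  obtain ⟨p, hp⟩ := perm q a b h1 h3 h4
  have a2 : ∀ u, a (u + (q + q)) = -a u := fun u => by rw [← add_assoc, h3, h4]
  have b2 : ∀ u, b (u + (q + q)) = -b u := fun u => by rw [← add_assoc, h4, h3]
  obtain ⟨N, hN⟩ : ∃ N : ℝ, N = ((4 * (n + 1) : ℕ) : ℝ) ^ (2 * n) := ⟨_, rfl⟩
  have cN : (Fintype.card (Fin (2 * n) → ZMod (4 * (n + 1))) : ℝ) = N := by simp [hN, ZMod.card]
  have c1 : ∀ x : Fin (2 * n) → ZMod (4 * (n + 1)),
      #{y : Fin (2 * n) → ZMod (4 * (n + 1)) | (R : ℝ) < ∑ j, (a (x j) * a (y j) + b (x j) * b (y j))} =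
      #{u : Fin (2 * n) → ZMod (4 * (n + 1)) | (R : ℝ) < ∑ j, a (u j)} := by
    intro x
    refine card_equiv (Equiv.subLeft x) fun y => ?_
    simp [h2]
  have c2 : #{u : Fin (2 * n) → ZMod (4 * (n + 1)) | (R : ℝ) < ∑ j, a (u j)} =
      #{u : Fin (2 * n) → ZMod (4 * (n + 1)) | ∑ j, a (u j) < -(R : ℝ)} := by
    refine card_equiv (Equiv.addRight fun _ => q + q) fun y => ?_
    simp [a2]
  have c3 := lo3 n R ε ε0 a p hp n2
  rw [ZMod.card, ← hN] at c3
  have c4 : (#{u : Fin (2 * n) → ZMod (4 * (n + 1)) | (R : ℝ) < ∑ j, a (u j)} : ℝ) +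
      #{u : Fin (2 * n) → ZMod (4 * (n + 1)) | ∑ j, a (u j) < -(R : ℝ)} +
      #{u : Fin (2 * n) → ZMod (4 * (n + 1)) | |∑ j, a (u j)| ≤ R} = N := by
    rw [← cN, ← card_univ, card_eq_sum_ones univ]
    simp only [card_filter]
    push_cast
    rw [← Finset.sum_add_distrib, ← Finset.sum_add_distrib]
    refine Finset.sum_congr rfl fun u _ => ?_
    simp only [abs_le]
    rcases lt_trichotomy (∑ j, a (u j)) (-R) with h | h | h
    · rw [if_neg (by linarith), if_pos h, if_neg (fun hh => by linarith [hh.1])]; norm_num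
    · rw [if_neg (by linarith), if_neg (by linarith), if_pos ⟨by linarith, by linarith⟩]; norm_num
    · by_cases h' : (R : ℝ) < ∑ j, a (u j)
      · rw [if_pos h', if_neg (by linarith), if_neg (fun hh => by linarith [hh.2])]; norm_num
      · rw [if_neg h', if_neg (by linarith), if_pos ⟨by linarith, by linarith⟩]; norm_num
  rw [← c2] at c4
  have N0 : 0 < N := by rw [hN]; positivity
  have sc : ∀ c : ℝ, ∑ _j : Fin (2 * n), c = 2 * n * c := fun c => by simp
  refine ⟨Fin (2 * n) → ZMod (4 * (n + 1)), inferInstance,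
    fun x y => ∑ j, ((a (x j) + a (y j)) ^ 2 + (b (x j) + b (y j)) ^ 2) ≤ R,
    fun x y => (R : ℝ) < ∑ j, (a (x j) * a (y j) + b (x j) * b (y j)), Fintype.card_pos,
    fun x y h => ?_, fun x h => ?_, fun x y h => ?_, fun x y z k1 k2 k3 => ?_,
    fun x x' y y' k1 k2 k3 k4 k5 k6 => ?_, fun x => ?_, fun x => ?_, fun S hS => ?_⟩
  · simpa only [add_comm (a (y _)), add_comm (b (y _))] using h
  · rw [Finset.sum_congr rfl (g := fun _ => 4) fun j _ => by linarith [h1 (x j)], sc] at h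
    linarith
  · simpa only [mul_comm (a (y _)), mul_comm (b (y _))] using h
  · have := add_le_add (add_le_add k1 k2) k3
    rw [← Finset.sum_add_distrib, ← Finset.sum_add_distrib] at this
    have h6 := le_trans (Finset.sum_le_sum (f := fun _ => (3 : ℝ)) fun j _ => by
      linarith [h1 (x j), h1 (y j), h1 (z j), sq_nonneg (a (x j) + a (y j) + a (z j)),
        sq_nonneg (b (x j) + b (y j) + b (z j))]) this
    rw [sc] at h6
    linarith
  · have u1 := add_le_add k1 k2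
    have u2 := add_lt_add (add_lt_add k3 k4) (add_lt_add k5 k6)
    simp only [← Finset.sum_add_distrib] at u1 u2
    have h6 := le_trans (Finset.sum_le_sum (f := fun j => 2 * (a (x j) * a (y j) + b (x j) * b (y j) +
      (a (x j) * a (y' j) + b (x j) * b (y' j)) + (a (x' j) * a (y j) + b (x' j) * b (y j) +
      (a (x' j) * a (y' j) + b (x' j) * b (y' j))))) fun j _ => by
      linarith [sq_nonneg (a (x j) + a (x' j) - a (y j) - a (y' j)),
        sq_nonneg (b (x j) + b (x' j) - b (y j) - b (y' j))]) u1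
    rw [← Finset.mul_sum] at h6
    linarith
  · have := c1 x
    rw [cN, this]
    have : 0 < ε * N := by positivity
    linarith
  · have := c1 x
    rw [cN, this]
    have : (0 : ℝ) ≤ #{u : Fin (2 * n) → ZMod (4 * (n + 1)) | |∑ j, a (u j)| ≤ R} := by positivity
    linarith
  · by_contra hc
    rw [cN, hN, not_le] at hc
    have m0 : (0 : ℝ) < (4 * (n + 1) : ℕ) := by positivity
    have pi1 : ((4 * (n + 1) : ℕ) : ℝ) ^ 2 * (2 * Real.pi / (4 * (n + 1) : ℕ)) ^ 2 ≤ 40 := by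
      rw [← mul_pow, mul_div_cancel₀ _ m0.ne']
      nlinarith [Real.pi_lt_d2, Real.pi_pos]
    obtain ⟨x, hx, y, hy, hxy⟩ := close (4 * (n + 1)) (2 * n) ψ _ ε R (by positivity) h5 pi1
      (le_trans (by
        rw [mul_comm]
        refine mul_le_mul_of_nonneg_right ?_ (sq_nonneg _)
        exact_mod_cast (show 2 * n ≤ (4 * (n + 1)) ^ 2 by nlinarith)) pi1)
      R1 ε0 R2 S (S.image fun x => x + fun _ => q + q) hc.le
      (by rw [card_image_of_injective _ (add_left_injective _)]; exact hc.le)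
    obtain ⟨z, hz, rfl⟩ := mem_image.1 hy
    refine hS z hz x hx (le_trans (le_of_eq ?_) hxy)
    refine Finset.sum_congr rfl fun j _ => ?_
    rw [Complex.sq_norm, Complex.normSq_apply]
    simp only [hψ, Pi.add_apply, a2, b2, Complex.sub_re, Complex.sub_im]
    ring

end Pool.Agent.H.MP_b4ba96_co
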