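import Mathlib

set_option autoImplicit false

namespace Pool.Agent.H.MP_b4ba96_co

open Finset Classical

theorem tune (k : ℕ) (k0 : 0 < k) (b : ℕ → ℕ) (hb : ∀ j, b j ≤ k) :
    ∃ I : ℕ → Finset ℕ, (∀ j, I j ⊆ range k ∧ #(I j) = b j) ∧ ∀ N, ∀ i < k,
      #{j ∈ range N | i ∈ I j} = (∑ j ∈ range N, b j) / k +
        if i < (∑ j ∈ range N, b j) % k then 1 else 0 := by
  obtain ⟨st, hst⟩ : ∃ st : ℕ → ℕ, ∀ N, st N = ∑ j ∈ range N, b j := ⟨_, fun _ => rfl⟩
  have inj : ∀ j, Set.InjOn (· % k) (Ico (st j) (st j + b j) : Finset ℕ) := fun j =>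
    (Nat.mod_injOn_Ico (st j) k).mono (coe_subset.2 (Ico_subset_Ico_right (by have := hb j; omega)))
  refine ⟨fun j => (Ico (st j) (st j + b j)).image (· % k), fun j => ⟨fun i hi => ?_, ?_⟩,
    fun N i hi => ?_⟩
  · obtain ⟨s, _, rfl⟩ := mem_image.1 hi
    exact mem_range.2 (Nat.mod_lt _ k0)
  · rw [card_image_of_injOn (inj j)]; simp
  · have := Nat.count_modEq_card (st N) k0 i
    rw [Nat.mod_eq_of_lt hi, Nat.count_eq_card_filter_range] at this
    rw [← hst, ← this]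
    clear this
    induction N with
    | zero => simp [hst]
    | succ N ih =>
      have e : range (st (N + 1)) = range (st N) ∪ Ico (st N) (st N + b N) := by
        ext s
        simp only [hst, sum_range_succ, mem_range, mem_union, mem_Ico]
        omega
      rw [e, filter_union, card_union_of_disjoint, ← ih, card_filter, sum_range_succ, ← card_filter]
      · congr 1
        split_ifs with h
        · obtain ⟨s, hs, rfl⟩ := mem_image.1 h
          symm
          rw [card_eq_one]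
          refine ⟨s, eq_singleton_iff_unique_mem.2 ⟨mem_filter.2 ⟨hs, (Nat.mod_modEq _ _).symm⟩,
            fun t ht => ?_⟩⟩
          rw [mem_filter] at ht
          exact inj N ht.1 hs (ht.2.trans (Nat.mod_modEq _ _))
        · symm
          rw [card_eq_zero, filter_eq_empty_iff]
          intro s hs hh
          exact h (mem_image.2 ⟨s, hs, by rw [hh, Nat.mod_eq_of_lt hi]⟩)
      · refine disjoint_filter_filter (disjoint_left.2 fun s h1 h2 => ?_)
        simp only [mem_range, mem_Ico] at h1 h2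
        omega

theorem labels (Ω : Type) [Fintype Ω] (h0 : 0 < Fintype.card Ω) : ∃ ω : ℕ → Ω,
    ∀ (P : Finset Ω) (a L : ℕ),
      (#P : ℝ) / Fintype.card Ω * L - Fintype.card Ω ≤ #{l ∈ Ico a (a + L) | ω l ∈ P} ∧
      (#{l ∈ Ico a (a + L) | ω l ∈ P} : ℝ) ≤ (#P : ℝ) / Fintype.card Ω * L + Fintype.card Ω := by
  obtain ⟨M, hM⟩ : ∃ M, M = Fintype.card Ω := ⟨_, rfl⟩
  rw [← hM] at h0 ⊢
  let e : Fin M ≃ Ω := (Fintype.equivFinOfCardEq hM.symm).symm
  obtain ⟨ω, hω⟩ : ∃ ω : ℕ → Ω, ∀ l, ω l = e ⟨l % M, Nat.mod_lt _ h0⟩ := ⟨_, fun _ => rfl⟩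
  refine ⟨ω, fun P a L => ?_⟩
  have per : Function.Periodic (fun l => ω l ∈ P) M := fun l => by simp [hω]
  have c1 : ∀ a, #{l ∈ Ico a (a + M) | ω l ∈ P} = #P := by
    intro a
    rw [Nat.filter_Ico_card_eq_of_periodic a M _ per, Nat.count_eq_card_filter_range]
    refine card_bij (fun l _ => ω l) (fun l hl => (mem_filter.1 hl).2) ?_ ?_
    · intro l hl l' hl' h
      rw [mem_filter, mem_range] at hl hl'
      rw [hω, hω] at h
      have := congrArg Fin.val (e.injective h)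
      simpa [Nat.mod_eq_of_lt hl.1, Nat.mod_eq_of_lt hl'.1] using this
    · intro x hx
      have : ω (e.symm x) = x := by simp [hω, Nat.mod_eq_of_lt (e.symm x).2]
      exact ⟨e.symm x, mem_filter.2 ⟨mem_range.2 (e.symm x).2, by rwa [this]⟩, this⟩
  have sp : ∀ a b c : ℕ, a ≤ b → b ≤ c → #{l ∈ Ico a c | ω l ∈ P} =
      #{l ∈ Ico a b | ω l ∈ P} + #{l ∈ Ico b c | ω l ∈ P} := by
    intro a b c h1 h2
    rw [← Ico_union_Ico_eq_Ico h1 h2, filter_union,
      card_union_of_disjoint (disjoint_filter_filter (Ico_disjoint_Ico_consecutive a b c))]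
  have c2 : ∀ q, #{l ∈ Ico a (a + q * M) | ω l ∈ P} = q * #P := by
    intro q
    induction q with
    | zero => simp
    | succ q ih =>
      rw [sp a (a + q * M) _ (by omega) (by rw [add_one_mul]; omega), ih, add_one_mul, ← add_assoc,
        c1, add_one_mul]
  have hL := Nat.div_add_mod' L M
  have hr := Nat.mod_lt L h0
  have c3 := sp a (a + L / M * M) (a + L) (by omega) (by omega)
  have c4 : #{l ∈ Ico (a + L / M * M) (a + L) | ω l ∈ P} ≤ M :=
    (card_filter_le _ _).trans (by rw [Nat.card_Ico]; omega)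
  rw [c2] at c3
  rw [c3]
  have M0 : (0 : ℝ) < M := by exact_mod_cast h0
  have p1 : (#P : ℝ) / M ≤ 1 := by
    rw [div_le_one M0, hM]; exact_mod_cast card_le_univ P
  have p0 : 0 ≤ (#P : ℝ) / M := by positivity
  have e1 : (#P : ℝ) / M * L = (L / M : ℕ) * #P + (#P : ℝ) / M * (L % M : ℕ) := by
    have : (L : ℝ) = (L / M : ℕ) * M + (L % M : ℕ) := by exact_mod_cast hL.symm
    rw [this]
    field_simp
  have r1 : ((L % M : ℕ) : ℝ) ≤ M := by exact_mod_cast hr.le
  have r2 := mul_le_mul p1 r1 (by positivity) zero_le_one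
  have r3 : 0 ≤ (#P : ℝ) / M * (L % M : ℕ) := by positivity
  have c5 : (#{l ∈ Ico (a + L / M * M) (a + L) | ω l ∈ P} : ℝ) ≤ M := by exact_mod_cast c4
  have c6 : (0 : ℝ) ≤ #{l ∈ Ico (a + L / M * M) (a + L) | ω l ∈ P} := by positivity
  push_cast
  constructor <;> linarith

def Good {n : ℕ} (G : SimpleGraph (Fin n)) : Prop :=
  G.CliqueFree 4 ∧ (∀ v : Fin n, 1 ≤ (G.neighborSet v).ncard) ∧
    (∀ d : ℕ, {v : Fin n | (G.neighborSet v).ncard = d}.ncard ≤ 4) ∧
    (∃ d : ℕ, {v : Fin n | (G.neighborSet v).ncard = d}.ncard = 4)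

theorem transfer {V : Type} [Fintype V] (n : ℕ) (hn : Fintype.card V = n) (G : SimpleGraph V)
    (dg : V → ℕ) (hdg : ∀ v, #{w | G.Adj v w} = dg v)
    (cf : ∀ a b c d, G.Adj a b → G.Adj a c → G.Adj a d → G.Adj b c → G.Adj b d → G.Adj c d → False)
    (pos : ∀ v, 1 ≤ dg v) (mul : ∀ d, #{v | dg v = d} ≤ 4) (ex : ∃ d, #{v | dg v = d} = 4) (B : ℕ)
    (ind : ∀ s : Finset V, (∀ x ∈ s, ∀ y ∈ s, ¬ G.Adj x y) → #s ≤ B) :
    ∃ G' : SimpleGraph (Fin n), Good G' ∧ G'.indepNum ≤ B := by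
  let e : Fin n ≃ V := (Fintype.equivFinOfCardEq hn).symm
  have h1 : ∀ v, ((G.comap e).neighborSet v).ncard = dg (e v) := by
    intro v
    rw [← hdg, Set.ncard_eq_toFinset_card']
    exact card_equiv e fun w => by simp
  have h2 : ∀ d, {v : Fin n | ((G.comap e).neighborSet v).ncard = d}.ncard = #{v | dg v = d} := by
    intro d
    rw [Set.ncard_eq_toFinset_card']
    exact card_equiv e fun w => by simp only [Set.mem_toFinset, Set.mem_setOf_eq, h1, mem_filter_univ]
  refine ⟨G.comap e, ⟨?_, fun v => h1 v ▸ pos _, fun d => h2 d ▸ mul d, ?_⟩, ?_⟩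
  · by_contra hc
    have f := SimpleGraph.topEmbeddingOfNotCliqueFree hc
    have : ∀ i j : Fin 4, i ≠ j → G.Adj (e (f i)) (e (f j)) := fun i j hij => f.map_adj_iff.2 hij
    exact cf _ _ _ _ (this 0 1 (by decide)) (this 0 2 (by decide)) (this 0 3 (by decide))
      (this 1 2 (by decide)) (this 1 3 (by decide)) (this 2 3 (by decide))
  · obtain ⟨d, hd⟩ := ex
    exact ⟨d, h2 d ▸ hd⟩
  · obtain ⟨s, hs⟩ := (G.comap e).exists_isNIndepSet_indepNum
    rw [← hs.card_eq, ← card_map e.toEmbedding]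
    refine ind _ fun x hx y hy hxy => ?_
    obtain ⟨x, hx', rfl⟩ := mem_map.1 hx
    obtain ⟨y, hy', rfl⟩ := mem_map.1 hy
    exact hs.isIndepSet hx' hy' (fun h => by rw [h] at hxy; exact G.irrefl hxy) hxy

end Pool.Agent.H.MP_b4ba96_co
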