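import Pool.Agent.H.MP_b4ba96_co.E

set_option autoImplicit false

namespace Pool.Agent.H.MP_b4ba96_co

open Finset Classical

abbrev VV (N k o : ℕ) : Type := (Bool × Fin N) ⊕ (Bool × Fin k) ⊕ Fin o

def adj {N k o : ℕ} (A C : ℕ → ℕ → Prop) (I : ℕ → Finset ℕ) : VV N k o → VV N k o → Prop
  | .inl (s, j), .inl (s', j') => if s = s' then A j j' else C j j'
  | .inl (s, j), .inr (.inl (s', i)) => s = s' ∧ (i : ℕ) ∈ I j
  | .inr (.inl (s', i)), .inl (s, j) => s = s' ∧ (i : ℕ) ∈ I j
  | .inr (.inl (s, i)), .inr (.inl (s', i')) => s ≠ s' ∧ (i : ℕ) + i' < k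
  | .inr (.inl (_, i)), .inr (.inr _) => (i : ℕ) = 0
  | .inr (.inr _), .inr (.inl (_, i)) => (i : ℕ) = 0
  | .inl _, .inr (.inr _) => False
  | .inr (.inr _), .inl _ => False
  | .inr (.inr _), .inr (.inr _) => False

def dgr {N k o : ℕ} (c : ℕ) (col : ℕ → ℕ) : VV N k o → ℕ
  | .inl (_, j) => c + j / 2
  | .inr (.inl (_, i)) => col i + (k - i) + if (i : ℕ) = 0 then o else 0
  | .inr (.inr _) => 2

theorem noK4 {N k o : ℕ} (A C : ℕ → ℕ → Prop) (I : ℕ → Finset ℕ) (sC : ∀ x y, C x y → C y x)
    (tri : ∀ x y z, A x y → A y z → A x z → False)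
    (four : ∀ x x' y y', A x x' → A y y' → C x y → C x y' → C x' y → C x' y' → False)
    (a b c d : VV N k o) (hab : adj A C I a b) (hac : adj A C I a c) (had : adj A C I a d)
    (hbc : adj A C I b c) (hbd : adj A C I b d) (hcd : adj A C I c d) : False := by
  rcases a with ⟨_ | _, a⟩ | ⟨_ | _, a⟩ | a <;> rcases b with ⟨_ | _, b⟩ | ⟨_ | _, b⟩ | b <;>
    simp [adj] at hab <;> rcases c with ⟨_ | _, c⟩ | ⟨_ | _, c⟩ | c <;> simp [adj] at hac hbc <;>
    rcases d with ⟨_ | _, d⟩ | ⟨_ | _, d⟩ | d <;> simp [adj] at had hbd hcd <;>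
    first
    | exact tri _ _ _ hab hbc hac
    | exact tri _ _ _ hab hbd had
    | exact tri _ _ _ hac hcd had
    | exact tri _ _ _ hbc hcd hbd
    | exact four _ _ _ _ hab hcd hac had hbc hbd
    | exact four _ _ _ _ hac hbd hab had (sC _ _ hbc) hcd
    | exact four _ _ _ _ had hbc hab hac (sC _ _ hbd) (sC _ _ hcd)

noncomputable def cn {α : Type} [Fintype α] (p : α → Prop) : ℕ := #{x | p x}

theorem cn_eq {α : Type} [Fintype α] (p : α → Prop) [DecidablePred p] : #{x | p x} = cn p := by
  unfold cn; congr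

theorem cn_const {n : ℕ} (p : Prop) [Decidable p] : cn (fun _ : Fin n => p) = if p then n else 0 := by
  by_cases h : p <;> simp [cn, h]

theorem cardV {N k o : ℕ} (p : VV N k o → Prop) : cn p =
    (cn (fun j => p (.inl (true, j))) + cn (fun j => p (.inl (false, j)))) +
      ((cn (fun i => p (.inr (.inl (true, i)))) + cn (fun i => p (.inr (.inl (false, i))))) +
        cn (fun w => p (.inr (.inr w)))) := by
  simp only [cn, card_filter, Fintype.sum_sum_type, Fintype.sum_prod_type, Fintype.sum_bool]

theorem cardF (N : ℕ) (p : ℕ → Prop) [DecidablePred p] :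
    cn (fun j : Fin N => p j) = #{j ∈ range N | p j} := by
  rw [← cn_eq]
  simp only [card_filter]
  exact Fin.sum_univ_eq_sum_range (fun j => if p j then 1 else 0) N

theorem build (N k o c B : ℕ) (A C : ℕ → ℕ → Prop) (I : ℕ → Finset ℕ) (col : ℕ → ℕ)
    (sA : ∀ x y, A x y → A y x) (iA : ∀ x, ¬ A x x) (sC : ∀ x y, C x y → C y x)
    (tri : ∀ x y z, A x y → A y z → A x z → False)
    (four : ∀ x x' y y', A x x' → A y y' → C x y → C x y' → C x' y → C x' y' → False)
    (hI : ∀ j, I j ⊆ range k)
    (hX : ∀ j < N, #{l ∈ range N | A j l} + #{l ∈ range N | C j l} + #(I j) = c + j / 2)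
    (hcol : ∀ i < k, #{j ∈ range N | i ∈ I j} = col i) (anti : Antitone col)
    (big : ∀ i, c + N / 2 < col i) (c2 : 2 < c) (N2 : 2 ≤ N) (o1 : o ≤ 1) (k0 : 0 < k)
    (ind : ∀ S ⊆ range N, (∀ x ∈ S, ∀ y ∈ S, ¬ A x y) → #S ≤ B) :
    ∃ G : SimpleGraph (Fin (2 * N + 2 * k + o)), Good G ∧ G.indepNum ≤ 2 * B + 2 * k + o := by
  let G : SimpleGraph (VV N k o) :=
    { Adj := adj A C I
      symm := ⟨fun a b h => by
        rcases a with ⟨_ | _, a⟩ | ⟨_ | _, a⟩ | a <;> rcases b with ⟨_ | _, b⟩ | ⟨_ | _, b⟩ | b <;>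
          simp [adj] at h ⊢ <;> first | exact sA _ _ h | exact sC _ _ h | exact h | omega⟩
      loopless := ⟨fun a h => by
        rcases a with ⟨_ | _, a⟩ | ⟨_ | _, a⟩ | a <;> simp [adj] at h <;> exact iA _ h⟩ }
  have hG : G.Adj = adj A C I := rfl
  have eI : ∀ j, #{i ∈ range k | i ∈ I j} = #(I j) := fun j => by
    congr 1; ext i; simp only [mem_filter, and_iff_right_iff_imp]; exact fun h => hI j h
  have eZ : ∀ i : ℕ, #{l ∈ range k | i + l < k} = k - i := fun i => by
    rw [← card_range (k - i)]; congr 1; ext l; simp only [mem_filter, mem_range]; omega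
  have e0 : #{l ∈ range k | l = 0} = 1 := by
    rw [card_eq_one]; exact ⟨0, by ext l; simp only [mem_filter, mem_range, mem_singleton]; omega⟩
  have mu : ∀ d, #{v : VV N k o | dgr c col v = d} = 2 * #{j ∈ range N | c + j / 2 = d} +
      (2 * #{i ∈ range k | col i + (k - i) + (if i = 0 then o else 0) = d} +
        if 2 = d then o else 0) := by
    intro d
    rw [cn_eq, cardV]
    simp only [dgr, cn_const]
    rw [cardF N (fun j => c + j / 2 = d),
      cardF k (fun i => col i + (k - i) + (if i = 0 then o else 0) = d)]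
    ring
  have zz : ∀ d, #{i ∈ range k | col i + (k - i) + (if i = 0 then o else 0) = d} ≤ 1 := by
    intro d
    rw [card_le_one]
    intro a ha b hb
    simp only [mem_filter, mem_range] at ha hb
    rcases lt_trichotomy a b with h | h | h
    · have := anti h.le
      split_ifs at ha hb <;> omega
    · exact h
    · have := anti h.le
      split_ifs at ha hb <;> omega
  have z0 : ∀ d ≤ c + N / 2,
      #{i ∈ range k | col i + (k - i) + (if i = 0 then o else 0) = d} = 0 := by
    intro d hd
    rw [card_eq_zero, filter_eq_empty_iff]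
    intro i _ h
    have := big i
    omega
  refine transfer _ (by simp; ring) G (dgr c col) ?_ (noK4 A C I sC tri four) ?_ ?_ ⟨c, ?_⟩ _ ?_
  · intro v
    rw [hG, cn_eq, cardV]
    rcases v with ⟨_ | _, a⟩ | ⟨_ | _, a⟩ | a
    · have := hX a a.2
      simp only [adj, dgr, if_true, Bool.false_eq_true, if_false, true_and, false_and,
        cn_const, if_false]
      rw [cardF N (A a), cardF N (C a), cardF k (· ∈ I a), eI]
      omega
    · have := hX a a.2
      simp only [adj, dgr, if_true, Bool.true_eq_false, if_false, true_and, false_and,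
        cn_const, if_false]
      rw [cardF N (A a), cardF N (C a), cardF k (· ∈ I a), eI]
      omega
    · simp only [adj, dgr, Bool.true_eq_false, Bool.false_eq_true, true_and, false_and,
        cn_const, if_false, ne_eq, not_true, not_false_eq_true]
      rw [cardF N (fun j => (a : ℕ) ∈ I j), cardF k (fun l => a + l < k), eZ, hcol a a.2]
      ring
    · simp only [adj, dgr, Bool.true_eq_false, Bool.false_eq_true, true_and, false_and,
        cn_const, if_false, ne_eq, not_true, not_false_eq_true]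
      rw [cardF N (fun j => (a : ℕ) ∈ I j), cardF k (fun l => a + l < k), eZ, hcol a a.2]
      ring
    · simp only [adj, dgr, cn_const, if_false]
      rw [cardF k (fun l => l = 0), e0]
  · intro v
    rcases v with ⟨_, a⟩ | ⟨_, a⟩ | a <;> simp only [dgr]
    · omega
    · have := big a
      omega
    · omega
  · intro d
    rw [mu]
    have h1 : #{j ∈ range N | c + j / 2 = d} ≤ 2 :=
      le_trans (card_le_card (t := {2 * (d - c), 2 * (d - c) + 1}) fun j hj => by
        simp only [mem_filter, mem_range, mem_insert, mem_singleton] at hj ⊢; omega) card_le_two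
    have h2 := zz d
    by_cases hd : c ≤ d ∧ d ≤ c + N / 2
    · rw [z0 d hd.2, if_neg (by omega)]; omega
    · have : #{j ∈ range N | c + j / 2 = d} = 0 := by
        rw [card_eq_zero, filter_eq_empty_iff]
        intro j hj h
        rw [mem_range] at hj
        omega
      split_ifs <;> omega
  · rw [mu, z0 c (by omega), if_neg (by omega)]
    have : {j ∈ range N | c + j / 2 = c} = {0, 1} := by
      ext j; simp only [mem_filter, mem_range, mem_insert, mem_singleton]; omega
    rw [this]
    rfl
  · intro s hs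
    have h1 : ∀ b : Bool, #{j : Fin N | (.inl (b, j) : VV N k o) ∈ s} ≤ B := by
      intro b
      rw [← card_map Fin.valEmbedding]
      refine ind _ (fun x hx => ?_) fun x hx y hy h => ?_
      · obtain ⟨x, _, rfl⟩ := mem_map.1 hx
        exact mem_range.2 x.2
      · obtain ⟨x, hx', rfl⟩ := mem_map.1 hx
        obtain ⟨y, hy', rfl⟩ := mem_map.1 hy
        rw [mem_filter_univ] at hx' hy'
        exact hs _ hx' _ hy' (by simpa [hG, adj] using h)
    have h2 := cardV (· ∈ s)
    rw [← cn_eq, filter_mem_eq_inter, univ_inter] at h2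
    have h3 : ∀ (n : ℕ) (p : Fin n → Prop), cn p ≤ n := fun n p => by
      simpa [cn] using card_le_univ (univ.filter p)
    simp only [cn_eq] at h1
    have := add_le_add (add_le_add (h1 true) (h1 false)) (add_le_add (add_le_add
      (h3 k fun i => (.inr (.inl (true, i)) : VV N k o) ∈ s)
      (h3 k fun i => (.inr (.inl (false, i)) : VV N k o) ∈ s))
      (h3 o fun w => (.inr (.inr w) : VV N k o) ∈ s))
    omega

end Pool.Agent.H.MP_b4ba96_co
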