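import Pool.Agent.H.MP_b4ba96_co.D
import Pool.Agent.H.MP_b4ba96_co.F

set_option autoImplicit false

namespace Pool.Agent.H.MP_b4ba96_co

open Finset Classical

theorem main1 (L : ℕ) (hL : 100 ≤ L) : ∃ n0, ∀ n ≥ n0, ∃ G : SimpleGraph (Fin n),
    Good G ∧ G.indepNum ≤ 19 * (n / L) := by
  have L0 : (0 : ℝ) < L := by exact_mod_cast (show 0 < L by omega)
  obtain ⟨ε, hε⟩ : ∃ ε : ℝ, ε = 1 / (4 * L) := ⟨_, rfl⟩
  have ε0 : 0 < ε := by rw [hε]; positivity
  obtain ⟨Ω, _, A, C, M0, hT⟩ := template ε ε0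
  obtain ⟨ω, hω⟩ := labels Ω M0
  obtain ⟨M, hM⟩ : ∃ M, M = Fintype.card Ω := ⟨_, rfl⟩
  have lo := hT.lo
  have hi := hT.hi
  have ind := hT.ind
  rw [← hM] at hω M0 lo hi ind
  have M0' : (0 : ℝ) < M := by exact_mod_cast M0
  refine ⟨(4 * M + 8) * L, fun n hn => ?_⟩
  obtain ⟨T, hTn⟩ : ∃ T, T = n / L := ⟨_, rfl⟩
  have T1 : 4 * M + 8 ≤ T := by rw [hTn]; exact (Nat.le_div_iff_mul_le (by omega)).2 hn
  have T2 : T * L ≤ n := by rw [hTn]; exact Nat.div_mul_le_self n L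
  have T3 : n < L * (T + 1) := by rw [hTn]; exact Nat.lt_mul_div_succ n (by omega)
  have T4 : T * 100 ≤ n := (Nat.mul_le_mul_left T hL).trans T2
  obtain ⟨N, o, o1, rfl⟩ : ∃ N o, o ≤ 1 ∧ n = 2 * N + 2 * (8 * T) + o :=
    ⟨(n - 16 * T) / 2, (n - 16 * T) % 2, by omega, by omega⟩
  have N1 : 42 * T ≤ N := by omega
  have eN : ε * N ≤ (T + 1) / 8 := by
    have : (2 * N : ℝ) ≤ L * (T + 1) := by exact_mod_cast (show 2 * N ≤ L * (T + 1) by omega)
    rw [hε, div_mul_eq_mul_div, div_le_div_iff₀ (by positivity) (by positivity)]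
    linarith
  have T1' : (4 * M + 8 : ℝ) ≤ T := by exact_mod_cast T1
  have small : ∀ P : Finset Ω, (∀ x ∈ P, ∀ y ∈ P, ¬ A x y) →
      (#{l ∈ range N | ω l ∈ P} : ℝ) ≤ ε * N + M := by
    intro P hP
    have h1 := (hω P 0 N).2
    rw [zero_add, ← range_eq_Ico] at h1
    have h2 : (#P : ℝ) / M ≤ ε := by rw [div_le_iff₀ M0']; exact ind P hP
    have h3 := mul_le_mul_of_nonneg_right h2 (Nat.cast_nonneg N)
    linarith
  obtain ⟨dA, hdA⟩ : ∃ dA : ℕ → ℕ, ∀ j, dA j = #{l ∈ range N | A (ω j) (ω l)} := ⟨_, fun _ => rfl⟩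
  obtain ⟨dC, hdC⟩ : ∃ dC : ℕ → ℕ, ∀ j, dC j = #{l ∈ range N | C (ω j) (ω l) ∧ N ≤ j + l + 1} :=
    ⟨_, fun _ => rfl⟩
  have bA : ∀ j, (dA j : ℝ) ≤ ε * N + M := by
    intro j
    have := small {y | A (ω j) y} fun x hx y hy h =>
      hT.tri _ _ _ (mem_filter.1 hx).2 h (mem_filter.1 hy).2
    simpa only [mem_filter_univ, ← hdA] using this
  have bd : ∀ j < N, dA j + dC j ≤ j / 2 + T ∧ j / 2 ≤ dA j + dC j + T := by
    intro j hj
    have h1 := hω {y | C (ω j) y} (N - 1 - j) (j + 1)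
    have e : {l ∈ Ico (N - 1 - j) (N - 1 - j + (j + 1)) | ω l ∈ ({y | C (ω j) y} : Finset Ω)} =
        {l ∈ range N | C (ω j) (ω l) ∧ N ≤ j + l + 1} := by
      ext l
      simp only [mem_filter, mem_Ico, mem_range, mem_univ, true_and]
      constructor
      · rintro ⟨h1, h2⟩; exact ⟨by omega, h2, by omega⟩
      · rintro ⟨h1, h2, h3⟩; exact ⟨by omega, h2⟩
    rw [e, ← hdC] at h1
    have h2 : (#{y | C (ω j) y} : ℝ) / M ≤ 1 / 2 := by
      rw [div_le_iff₀ M0']; linarith [hi (ω j)]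
    have h3 : 1 / 2 - ε ≤ (#{y | C (ω j) y} : ℝ) / M := by
      rw [le_div_iff₀ M0']; exact lo (ω j)
    have h4 := mul_le_mul_of_nonneg_right h2 (Nat.cast_nonneg (j + 1))
    have h5 := mul_le_mul_of_nonneg_right h3 (Nat.cast_nonneg (j + 1))
    have h6 : ((j + 1 : ℕ) : ℝ) ≤ N := by exact_mod_cast hj
    have h7 := mul_le_mul_of_nonneg_left h6 ε0.le
    have h8 : ((j + 1 : ℕ) : ℝ) ≤ 2 * (j / 2 : ℕ) + 2 := by
      exact_mod_cast (show j + 1 ≤ 2 * (j / 2) + 2 by omega)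
    have h9 : (2 * (j / 2 : ℕ) : ℝ) ≤ ((j + 1 : ℕ) : ℝ) := by
      exact_mod_cast (show 2 * (j / 2) ≤ j + 1 by omega)
    have h10 := bA j
    have h11 : (0 : ℝ) ≤ dA j := Nat.cast_nonneg _
    constructor
    · have : (dA j + dC j : ℝ) ≤ (j / 2 : ℕ) + T := by linarith [h1.2]
      exact_mod_cast this
    · have : ((j / 2 : ℕ) : ℝ) ≤ dA j + dC j + T := by linarith [h1.1]
      exact_mod_cast this
  obtain ⟨I, hI, hcol⟩ := tune (8 * T) (by omega)
    (fun j => min (8 * T) (7 * T + j / 2 - (dA j + dC j))) fun j => min_le_left _ _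
  obtain ⟨S, hS⟩ : ∃ S, S = ∑ j ∈ range N, min (8 * T) (7 * T + j / 2 - (dA j + dC j)) := ⟨_, rfl⟩
  have S1 : N * (6 * T) ≤ S := by
    have := card_nsmul_le_sum (range N) (fun j => min (8 * T) (7 * T + j / 2 - (dA j + dC j)))
      (6 * T) fun j hj => by have := bd j (mem_range.1 hj); omega
    rwa [card_range, smul_eq_mul, ← hS] at this
  have S2 : 7 * T + N / 2 + 1 ≤ S / (8 * T) := by
    rw [Nat.le_div_iff_mul_le (by omega)]
    have := Nat.mul_le_mul_right T (show (7 * T + N / 2 + 1) * 8 ≤ N * 6 by omega)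
    rw [mul_assoc, mul_assoc] at this
    exact this.trans S1
  obtain ⟨G, hG, hB⟩ := build N (8 * T) o (7 * T) T (fun j l => A (ω j) (ω l))
    (fun j l => C (ω j) (ω l) ∧ N ≤ j + l + 1) I
    (fun i => S / (8 * T) + if i < S % (8 * T) then 1 else 0)
    (fun _ _ => hT.sA _ _) (fun _ => hT.iA _) (fun _ _ h => ⟨hT.sC _ _ h.1, by omega⟩)
    (fun _ _ _ => hT.tri _ _ _)
    (fun _ _ _ _ h1 h2 h3 h4 h5 h6 => hT.four _ _ _ _ h1 h2 h3.1 h4.1 h5.1 h6.1)
    (fun j => (hI j).1)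
    (fun j hj => by
      have h1 := bd j hj
      have h2 := (hI j).2
      have h3 := hdA j
      have h4 := hdC j
      convert (show dA j + dC j + #(I j) = 7 * T + j / 2 by omega) using 3
      · convert h3.symm
      · convert h4.symm)
    (fun i hi => by rw [hS]; exact hcol N i hi)
    (fun a b hab => by simp only; split_ifs <;> omega) (fun i => by omega) (by omega) (by omega) o1
    (by omega) (fun s hs h => by
      have h1 := small (s.image ω) fun x hx y hy => by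
        obtain ⟨x, hx', rfl⟩ := mem_image.1 hx
        obtain ⟨y, hy', rfl⟩ := mem_image.1 hy
        exact h x hx' y hy'
      have h2 : #s ≤ #{l ∈ range N | ω l ∈ s.image ω} :=
        card_le_card fun l hl => mem_filter.2 ⟨hs hl, mem_image_of_mem _ hl⟩
      have h3 : (#s : ℝ) ≤ #{l ∈ range N | ω l ∈ s.image ω} := by exact_mod_cast h2
      have : (#s : ℝ) ≤ T := by linarith
      exact_mod_cast this)
  exact ⟨G, hG, by omega⟩

theorem main : ∃ N : ℕ, ∃ G : (n : ℕ) → SimpleGraph (Fin n), (∀ n ≥ N, Good (G n)) ∧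
    Filter.Tendsto (fun n : ℕ => ((G n).indepNum : ℝ) / (n : ℝ)) Filter.atTop (nhds 0) := by
  have ex : ∀ n, ∃ G : SimpleGraph (Fin n), ∀ G' : SimpleGraph (Fin n), Good G' →
      Good G ∧ G.indepNum ≤ G'.indepNum := by
    intro n
    by_cases h : ∃ G : SimpleGraph (Fin n), Good G
    · obtain ⟨G, hG, hm⟩ := Set.exists_min_image {G : SimpleGraph (Fin n) | Good G}
        (fun G => G.indepNum) (Set.toFinite _) h
      exact ⟨G, fun G' h' => ⟨hG, hm G' h'⟩⟩
    · exact ⟨⊥, fun G' h' => (h ⟨G', h'⟩).elim⟩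
  choose G hG using ex
  obtain ⟨n0, h0⟩ := main1 100 le_rfl
  refine ⟨n0, G, fun n hn => ?_, ?_⟩
  · obtain ⟨G', h', _⟩ := h0 n hn
    exact (hG n G' h').1
  · rw [Metric.tendsto_atTop]
    intro η η0
    obtain ⟨L, hL⟩ := exists_nat_gt (max 100 (19 / η))
    have L1 : (100 : ℝ) < L := (le_max_left _ _).trans_lt hL
    have L2 : 19 < η * L := by
      have := (le_max_right _ _).trans_lt hL
      rwa [div_lt_iff₀' η0] at this
    obtain ⟨n1, h1⟩ := main1 L (by exact_mod_cast L1.le)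
    refine ⟨n1 + 1, fun n hn => ?_⟩
    obtain ⟨G', h', hb⟩ := h1 n (by omega)
    have n0 : (0 : ℝ) < n := by exact_mod_cast (show 0 < n by omega)
    have h2 : (G n).indepNum * L ≤ 19 * n := by
      have := Nat.mul_le_mul_right L ((hG n G' h').2.trans hb)
      have h3 := Nat.div_mul_le_self n L
      rw [mul_assoc] at this
      omega
    have h3 : ((G n).indepNum : ℝ) * L ≤ 19 * n := by exact_mod_cast h2
    rw [Real.dist_0_eq_abs, abs_of_nonneg (by positivity), div_lt_iff₀ n0]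
    have h4 := mul_lt_mul_of_pos_right L2 n0
    exact lt_of_mul_lt_mul_right (a := (L : ℝ)) (by linarith) (by linarith)

end Pool.Agent.H.MP_b4ba96_co
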